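import Pool.Agent.Q83.FF.Stm

set_option autoImplicit false

open Pool.Agent.Q83.FF
open Polynomial Finset Filter Topology

namespace Pool.Agent.Q102.FF

theorem zero_pn (g : ℝ → ℝ) (hg : Continuous g) (x y : ℝ) (hxy : x < y) (hx : 0 < g x)
    (hy : g y < 0) : ∃ t, x < t ∧ t < y ∧ g t = 0 := by
  obtain ⟨t, ht, h0⟩ := intermediate_value_Ioo' hxy.le hg.continuousOn
    (show (0 : ℝ) ∈ Set.Ioo (g y) (g x) from ⟨hy, hx⟩)
  exact ⟨t, ht.1, ht.2, h0⟩

theorem zero_np (g : ℝ → ℝ) (hg : Continuous g) (x y : ℝ) (hxy : x < y) (hx : g x < 0)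
    (hy : 0 < g y) : ∃ t, x < t ∧ t < y ∧ g t = 0 := by
  obtain ⟨t, ht, h0⟩ := intermediate_value_Ioo hxy.le hg.continuousOn
    (show (0 : ℝ) ∈ Set.Ioo (g x) (g y) from ⟨hx, hy⟩)
  exact ⟨t, ht.1, ht.2, h0⟩

theorem t_abs : S_abs := by
  intro ι _ _ f phi hc hf hdeg hs h0 h1 i0 hi0 A B hA hB hcard
  have hf0 : f ≠ 0 := by
    intro h
    have h2 := hf 0
    rw [h, Polynomial.eval_zero] at h2
    exact (Finset.prod_pos (fun i (_ : i ∈ univ) => h0 i)).ne h2
  obtain ⟨z1, hz1, hz1', hz1z⟩ := zero_pn (phi i0) (hc i0) 0 (1 / 2) (by norm_num) (h0 i0) hi0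
  obtain ⟨z2, hz2, hz2', hz2z⟩ := zero_np (phi i0) (hc i0) (1 / 2) 1 (by norm_num) hi0 (h1 i0)
  have hA' : ∀ i : ι, ∃ t, i ∈ A → 1 < t ∧ phi i t = 0 := by
    intro i
    by_cases hi : i ∈ A
    · obtain ⟨t, ht, hn⟩ := hA i hi
      obtain ⟨s, hs1, -, hs3⟩ := zero_pn (phi i) (hc i) 1 t ht (h1 i) hn
      exact ⟨s, fun _ => ⟨hs1, hs3⟩⟩
    · exact ⟨0, fun h => absurd h hi⟩
  have hB' : ∀ i : ι, ∃ t, i ∈ B → t < 0 ∧ phi i t = 0 := by
    intro i
    by_cases hi : i ∈ B
    · obtain ⟨t, ht, hn⟩ := hB i hi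
      obtain ⟨s, -, hs2, hs3⟩ := zero_np (phi i) (hc i) t 0 ht hn (h0 i)
      exact ⟨s, fun _ => ⟨hs2, hs3⟩⟩
    · exact ⟨0, fun h => absurd h hi⟩
  choose zA hzA using hA'
  choose zB hzB using hB'
  have hroot : ∀ i t, phi i t = 0 → t ∈ f.roots.toFinset := by
    intro i t hit
    rw [Multiset.mem_toFinset, Polynomial.mem_roots hf0, Polynomial.IsRoot, hf t]
    exact Finset.prod_eq_zero (mem_univ i) hit
  set ZA := A.image zA with hZA
  set ZB := B.image zB with hZB
  have cA : ZA.card = A.card := by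
    apply Finset.card_image_of_injOn
    intro i hi j hj hij
    have e1 := (hzA i (by simpa using hi)).2
    have e2 := (hzA j (by simpa using hj)).2
    rw [← hij] at e2
    exact hs _ _ _ e1 e2
  have cB : ZB.card = B.card := by
    apply Finset.card_image_of_injOn
    intro i hi j hj hij
    have e1 := (hzB i (by simpa using hi)).2
    have e2 := (hzB j (by simpa using hj)).2
    rw [← hij] at e2
    exact hs _ _ _ e1 e2
  have mA : ∀ z ∈ ZA, 1 < z := by
    intro z hz
    obtain ⟨i, hi, rfl⟩ := Finset.mem_image.1 hz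
    exact (hzA i hi).1
  have mB : ∀ z ∈ ZB, z < 0 := by
    intro z hz
    obtain ⟨i, hi, rfl⟩ := Finset.mem_image.1 hz
    exact (hzB i hi).1
  have d1 : Disjoint ZA ZB := by
    rw [Finset.disjoint_left]
    intro z hz hz'
    have := mA z hz
    have := mB z hz'
    linarith
  have d2 : Disjoint ({z1, z2} : Finset ℝ) (ZA ∪ ZB) := by
    rw [Finset.disjoint_left]
    intro z hz hz'
    simp only [Finset.mem_insert, Finset.mem_singleton] at hz
    rcases Finset.mem_union.1 hz' with h | h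
    · have := mA z h
      rcases hz with rfl | rfl <;> linarith
    · have := mB z h
      rcases hz with rfl | rfl <;> linarith
  have c2 : ({z1, z2} : Finset ℝ).card = 2 := Finset.card_pair (by linarith)
  have hsub : ({z1, z2} : Finset ℝ) ∪ (ZA ∪ ZB) ⊆ f.roots.toFinset := by
    intro z hz
    rcases Finset.mem_union.1 hz with h | h
    · simp only [Finset.mem_insert, Finset.mem_singleton] at h
      rcases h with rfl | rfl
      · exact hroot i0 _ hz1z
      · exact hroot i0 _ hz2z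
    · rcases Finset.mem_union.1 h with h | h
      · obtain ⟨i, hi, rfl⟩ := Finset.mem_image.1 h
        exact hroot i _ (hzA i hi).2
      · obtain ⟨i, hi, rfl⟩ := Finset.mem_image.1 h
        exact hroot i _ (hzB i hi).2
  have hle := Finset.card_le_card hsub
  rw [Finset.card_union_of_disjoint d2, Finset.card_union_of_disjoint d1, c2, cA, cB] at hle
  have h3 : f.roots.toFinset.card ≤ f.natDegree :=
    (Multiset.toFinset_card_le _).trans (Polynomial.card_roots' f)
  omega

end Pool.Agent.Q102.FF
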