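import Pool.Agent.Q83.FF.Stm

set_option autoImplicit false

open Pool.Agent.Q83.FF
open Polynomial Finset Filter Topology

namespace Pool.Agent.Q102.FF

/-- the pairs of different sets with the same number of elements -/
noncomputable def prs (d : ℕ) : Finset (Finset (Fin d) × Finset (Fin d)) :=
  (univ : Finset (Finset (Fin d) × Finset (Fin d))).filter (fun x => x.1.card = x.2.card ∧ x.1 ≠ x.2)

/-- product of the differences of sums -/
noncomputable def pph (d : ℕ) : MvPolynomial (Fin d) ℝ :=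
  ∏ x ∈ prs d, (∑ i ∈ x.1, MvPolynomial.X i - ∑ i ∈ x.2, MvPolynomial.X i)

theorem pph_symm (d : ℕ) : (pph d).IsSymmetric := by
  intro s
  unfold pph
  rw [map_prod]
  refine Finset.prod_bij' (fun x _ => (x.1.map s.toEmbedding, x.2.map s.toEmbedding))
    (fun x _ => (x.1.map s.symm.toEmbedding, x.2.map s.symm.toEmbedding)) ?_ ?_ ?_ ?_ ?_
  · intro x hx
    simp only [prs, mem_filter, mem_univ, true_and, Finset.card_map] at hx ⊢
    exact ⟨hx.1, fun h => hx.2 (Finset.map_injective _ h)⟩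
  · intro x hx
    simp only [prs, mem_filter, mem_univ, true_and, Finset.card_map] at hx ⊢
    exact ⟨hx.1, fun h => hx.2 (Finset.map_injective _ h)⟩
  · intro x hx
    ext i <;> simp
  · intro x hx
    ext i <;> simp
  · intro x hx
    rw [map_sub, map_sum, map_sum]
    simp [Finset.sum_map, MvPolynomial.rename_X]

theorem pph_eval (d : ℕ) (c : Fin d → ℝ) : MvPolynomial.eval c (pph d) =
    ∏ x ∈ prs d, (∑ i ∈ x.1, c i - ∑ i ∈ x.2, c i) := by
  unfold pph
  rw [map_prod]
  refine Finset.prod_congr rfl fun x _ => ?_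
  simp [map_sub, map_sum]

theorem P_zero (d : ℕ) : P (0 : Fin d → ℝ) = X ^ d := by
  simp [P]

theorem two_inj (d : ℕ) (S T : Finset (Fin d))
    (h : ∑ i ∈ S, (2 : ℝ) ^ (i : ℕ) = ∑ i ∈ T, (2 : ℝ) ^ (i : ℕ)) : S = T := by
  have h1 : ∑ i ∈ S, (2 : ℕ) ^ (i : ℕ) = ∑ i ∈ T, (2 : ℕ) ^ (i : ℕ) := by
    exact_mod_cast h
  have h2 : ∑ i ∈ S.map Fin.valEmbedding, (2 : ℕ) ^ i = ∑ i ∈ T.map Fin.valEmbedding, (2 : ℕ) ^ i := by
    simpa [Finset.sum_map] using h1
  exact Finset.map_injective _ (Finset.geomSum_injective (le_refl 2) h2)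

theorem t_dens (h_rr : S_rr) (h_uniq : S_uniq) (h_sym : S_sym) (h_poly2 : S_poly2)
    (h_convbasic : S_convbasic) : S_dens := by
  intro d a b e he
  obtain ⟨huq, -, hmon, -, -, -⟩ := h_uniq
  set a1 : Fin d → ℝ := fun i => 2 ^ (i : ℕ) with ha1
  obtain ⟨E, hE⟩ := h_poly2 d a (a1 - a) b (0 - b)
  choose c hcm hcP using fun t : ℝ => h_rr d (a + t • (a1 - a)) (b + t • (0 - b))
  obtain ⟨f, hf⟩ := h_sym d (pph d) (pph_symm d) c E (fun t j => by rw [hcP t, hE t j])
  have hmono : Monotone a1 := by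
    intro i j hij
    simp only [ha1]
    exact pow_le_pow_right₀ (by norm_num) hij
  have hc1 : c 1 = a1 := by
    apply huq d _ _ (hcm 1) hmono
    rw [hcP 1]
    have e1 : a + (1 : ℝ) • (a1 - a) = a1 := by simp
    have e2 : b + (1 : ℝ) • (0 - b) = 0 := by simp
    rw [e1, e2, P_zero]
    exact h_convbasic.2.2.2.2 d (P a1) (le_of_eq (hmon d a1).2)
  have hf1 : f.eval 1 ≠ 0 := by
    rw [hf 1, hc1, pph_eval, Finset.prod_ne_zero_iff]
    intro x hx h0
    simp only [prs, mem_filter, mem_univ, true_and] at hx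
    exact hx.2 (two_inj d _ _ (sub_eq_zero.1 h0))
  have hf0 : f ≠ 0 := by
    intro h; rw [h] at hf1; simp at hf1
  set M : ℝ := ∑ i, |a1 i - a i| + ∑ i, |0 - b i| + 1 with hM
  have hM1 : 1 ≤ M := by
    have h1 : 0 ≤ ∑ i, |a1 i - a i| := Finset.sum_nonneg fun i _ => abs_nonneg _
    have h2 : 0 ≤ ∑ i, |0 - b i| := Finset.sum_nonneg fun i _ => abs_nonneg _
    rw [hM]; linarith
  have hMpos : 0 < M := by linarith
  have hδ : 0 < e / M := div_pos he hMpos
  obtain ⟨t, ht, hft⟩ : ∃ t ∈ Set.Ioo (0 : ℝ) (e / M), f.eval t ≠ 0 := by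
    by_contra hcon
    push Not at hcon
    apply hf0
    apply Polynomial.eq_zero_of_infinite_isRoot
    exact (Set.Ioo_infinite hδ).mono fun t ht => hcon t ht
  refine ⟨a + t • (a1 - a), b + t • (0 - b), ?_, ?_, ?_⟩
  · intro i
    have h1 : (a + t • (a1 - a)) i - a i = t * (a1 i - a i) := by
      simp [Pi.add_apply, Pi.smul_apply, smul_eq_mul]
    rw [h1, abs_mul, abs_of_pos ht.1]
    have h2 : |a1 i - a i| ≤ ∑ j, |a1 j - a j| :=
      Finset.single_le_sum (f := fun j => |a1 j - a j|) (fun j _ => abs_nonneg _) (mem_univ i)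
    have h3 : 0 ≤ ∑ i, |0 - b i| := Finset.sum_nonneg fun i _ => abs_nonneg _
    have h4 : |a1 i - a i| < M := by rw [hM]; linarith
    calc t * |a1 i - a i| ≤ t * M := mul_le_mul_of_nonneg_left h4.le ht.1.le
      _ < e / M * M := mul_lt_mul_of_pos_right ht.2 hMpos
      _ = e := div_mul_cancel₀ e hMpos.ne'
  · intro i
    have h1 : (b + t • (0 - b)) i - b i = t * (0 - b i) := by
      simp [Pi.add_apply, Pi.smul_apply, smul_eq_mul]
    rw [h1, abs_mul, abs_of_pos ht.1]
    have h2 : |0 - b i| ≤ ∑ j, |0 - b j| :=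
      Finset.single_le_sum (f := fun j => |0 - b j|) (fun j _ => abs_nonneg _) (mem_univ i)
    have h3 : 0 ≤ ∑ i, |a1 i - a i| := Finset.sum_nonneg fun i _ => abs_nonneg _
    have h4 : |0 - b i| < M := by rw [hM]; linarith
    calc t * |0 - b i| ≤ t * M := mul_le_mul_of_nonneg_left h4.le ht.1.le
      _ < e / M * M := mul_lt_mul_of_pos_right ht.2 hMpos
      _ = e := div_mul_cancel₀ e hMpos.ne'
  · intro c' hc'm hc'P S T hST hsum
    have hcc : c' = c t := huq d _ _ hc'm (hcm t) (by rw [hc'P, hcP t])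
    subst hcc
    by_contra hne
    apply hft
    rw [hf t, pph_eval]
    refine Finset.prod_eq_zero (i := (S, T)) ?_ ?_
    · simp only [prs, mem_filter, mem_univ, true_and]
      exact ⟨hST, hne⟩
    · exact sub_eq_zero.2 hsum

end Pool.Agent.Q102.FF
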