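import Pool.Agent.Q83.FF.Stm

set_option autoImplicit false

open Pool.Agent.Q83.FF
open Polynomial Finset Filter Topology

namespace Pool.Agent.Q102.FF

/-- the family of polynomials `P (a + t • a')` as a polynomial over `ℝ[t]` -/
noncomputable def PP {d : ℕ} (a a' : Fin d → ℝ) : (ℝ[X])[X] :=
  ∏ i, (X - C (C (a i) + X * C (a' i)))

theorem PP_eval {d : ℕ} (a a' : Fin d → ℝ) (t : ℝ) (j : ℕ) :
    (P (a + t • a')).coeff j = ((PP a a').coeff j).eval t := by
  have h : (PP a a').map (evalRingHom t) = P (a + t • a') := by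
    unfold PP P
    rw [Polynomial.map_prod]
    refine Finset.prod_congr rfl fun i _ => ?_
    have e : C t * C (a' i) = C (a' i) * C t := mul_comm _ _
    simp [Pi.add_apply, Pi.smul_apply, smul_eq_mul, e]
  rw [← h, Polynomial.coeff_map, coe_evalRingHom]

theorem t_poly2 : S_poly2 := by
  intro d a a' b b'
  refine ⟨fun j => ∑ i ∈ range (d + 1), (C ((-1 : ℝ) ^ i) * ∑ jk ∈ antidiagonal i,
    C (((Nat.factorial (d - jk.1) : ℝ) * (Nat.factorial (d - jk.2) : ℝ))
      / ((Nat.factorial d : ℝ) * (Nat.factorial (d - i) : ℝ)))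
      * (C ((-1 : ℝ) ^ jk.1) * (PP a a').coeff (d - jk.1))
      * (C ((-1 : ℝ) ^ jk.2) * (PP b b').coeff (d - jk.2)))
    * (if j = d - i then 1 else 0), fun t j => ?_⟩
  unfold conv
  rw [Polynomial.finsetSum_coeff, Polynomial.eval_finsetSum]
  refine Finset.sum_congr rfl fun i _ => ?_
  rw [Polynomial.coeff_C_mul, Polynomial.coeff_X_pow, Polynomial.eval_mul]
  congr 1
  · rw [Polynomial.eval_mul, Polynomial.eval_finsetSum, Polynomial.eval_C]
    congr 1
    refine Finset.sum_congr rfl fun jk _ => ?_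
    rw [PP_eval, PP_eval]
    simp only [Polynomial.eval_mul, Polynomial.eval_C]
  · split_ifs <;> simp

end Pool.Agent.Q102.FF
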