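import Pool.Agent.Q83.FF.Stm

set_option autoImplicit false

open Pool.Agent.Q83.FF
open Polynomial Finset Filter Topology

namespace Pool.Agent.Q102.FF

/-- product of the negated sums over the sets with `n` elements -/
noncomputable def psn (d n : ℕ) : MvPolynomial (Fin d) ℝ :=
  ∏ S ∈ powersetCard n (univ : Finset (Fin d)), (-∑ i ∈ S, MvPolynomial.X i)

theorem psn_symm (d n : ℕ) : (psn d n).IsSymmetric := by
  intro s
  unfold psn
  rw [map_prod]
  refine Finset.prod_bij' (fun S _ => S.map s.toEmbedding)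
    (fun S _ => S.map s.symm.toEmbedding) ?_ ?_ ?_ ?_ ?_
  · intro S hS
    simp only [mem_powersetCard, subset_univ, true_and, Finset.card_map] at hS ⊢
    exact hS
  · intro S hS
    simp only [mem_powersetCard, subset_univ, true_and, Finset.card_map] at hS ⊢
    exact hS
  · intro x hx
    ext i; simp
  · intro x hx
    ext i; simp
  · intro x hx
    rw [map_neg, map_sum]
    simp [Finset.sum_map, MvPolynomial.rename_X]

theorem psn_eval (d n : ℕ) (c : Fin d → ℝ) : MvPolynomial.eval c (psn d n) =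
    ∏ S ∈ powersetCard n (univ : Finset (Fin d)), (-∑ i ∈ S, c i) := by
  unfold psn
  rw [map_prod]
  refine Finset.prod_congr rfl fun x _ => ?_
  simp [map_neg, map_sum]

theorem P_shift (d : ℕ) (g : Fin d → ℝ) (x : ℝ) :
    P (fun i => g i - x) = (P g).comp (X + C x) := by
  unfold P
  rw [Polynomial.prod_comp]
  refine Finset.prod_congr rfl fun i _ => ?_
  simp only [sub_comp, X_comp, C_comp, C_sub]
  ring

theorem P_deg (d : ℕ) (g : Fin d → ℝ) : (P g).natDegree = d := by
  unfold P
  rw [Polynomial.natDegree_prod_of_monic _ _ (fun i _ => monic_X_sub_C _)]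
  simp

theorem comp_coeff (d : ℕ) (p : ℝ[X]) (hp : p.natDegree ≤ d) (x : ℝ) (j : ℕ) :
    (p.comp (X + C x)).coeff j =
      ∑ k ∈ range (d + 1), p.coeff k * (x ^ (k - j) * (k.choose j : ℝ)) := by
  conv_lhs => rw [Polynomial.as_sum_range' p (d + 1) (by omega)]
  simp only [Polynomial.comp]
  rw [Polynomial.eval₂_finsetSum, Polynomial.finsetSum_coeff]
  refine Finset.sum_congr rfl fun k _ => ?_
  rw [Polynomial.eval₂_monomial, Polynomial.coeff_C_mul, Polynomial.coeff_X_add_C_pow]

theorem om_bound (h_om3 : S_om3) (d : ℕ) (a a' b b' : Fin d → ℝ) :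
    ∃ K : ℝ, 0 ≤ K ∧ ∀ t i, |Om (a + t • a') (b + t • b') i| ≤ K * (1 + |t|) := by
  set A : ℝ := ∑ i, |a i| + ∑ i, |a' i| + ∑ i, |b i| + ∑ i, |b' i| with hA
  have n1 : 0 ≤ ∑ i, |a i| := Finset.sum_nonneg fun i _ => abs_nonneg _
  have n2 : 0 ≤ ∑ i, |a' i| := Finset.sum_nonneg fun i _ => abs_nonneg _
  have n3 : 0 ≤ ∑ i, |b i| := Finset.sum_nonneg fun i _ => abs_nonneg _
  have n4 : 0 ≤ ∑ i, |b' i| := Finset.sum_nonneg fun i _ => abs_nonneg _
  have hA0 : 0 ≤ A := by rw [hA]; linarith
  have key : ∀ (t x y : ℝ), |x| ≤ A → |y| ≤ A → (x + t * y) ^ 2 ≤ (A * (1 + |t|)) ^ 2 := by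
    intro t x y hx hy
    apply sq_le_sq'
    · have := neg_abs_le (x + t * y)
      have h1 : |x + t * y| ≤ A * (1 + |t|) := by
        calc |x + t * y| ≤ |x| + |t * y| := abs_add_le _ _
          _ = |x| + |t| * |y| := by rw [abs_mul]
          _ ≤ A + |t| * A := add_le_add hx (mul_le_mul_of_nonneg_left hy (abs_nonneg _))
          _ = A * (1 + |t|) := by ring
      linarith
    · calc x + t * y ≤ |x + t * y| := le_abs_self _
          _ ≤ |x| + |t * y| := abs_add_le _ _
          _ = |x| + |t| * |y| := by rw [abs_mul]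
          _ ≤ A + |t| * A := add_le_add hx (mul_le_mul_of_nonneg_left hy (abs_nonneg _))
          _ = A * (1 + |t|) := by ring
  have s1 : ∀ i, |a i| ≤ A := fun i => by
    have := Finset.single_le_sum (f := fun j => |a j|) (fun j _ => abs_nonneg _) (mem_univ i)
    rw [hA]; linarith
  have s2 : ∀ i, |a' i| ≤ A := fun i => by
    have := Finset.single_le_sum (f := fun j => |a' j|) (fun j _ => abs_nonneg _) (mem_univ i)
    rw [hA]; linarith
  have s3 : ∀ i, |b i| ≤ A := fun i => by
    have := Finset.single_le_sum (f := fun j => |b j|) (fun j _ => abs_nonneg _) (mem_univ i)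
    rw [hA]; linarith
  have s4 : ∀ i, |b' i| ≤ A := fun i => by
    have := Finset.single_le_sum (f := fun j => |b' j|) (fun j _ => abs_nonneg _) (mem_univ i)
    rw [hA]; linarith
  refine ⟨2 * ((d : ℝ) + 1) * A, by positivity, fun t i => ?_⟩
  have hB : 0 ≤ A * (1 + |t|) := mul_nonneg hA0 (by positivity)
  have h1 := h_om3.2.2 d (a + t • a') (b + t • b')
  have h2 : ∑ i, (a + t • a') i ^ 2 ≤ d * (A * (1 + |t|)) ^ 2 := by
    calc ∑ i, (a + t • a') i ^ 2 ≤ ∑ _i : Fin d, (A * (1 + |t|)) ^ 2 :=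
          Finset.sum_le_sum fun i _ => by
            simpa [Pi.add_apply, Pi.smul_apply, smul_eq_mul] using key t (a i) (a' i) (s1 i) (s2 i)
      _ = d * (A * (1 + |t|)) ^ 2 := by simp
  have h3 : ∑ i, (b + t • b') i ^ 2 ≤ d * (A * (1 + |t|)) ^ 2 := by
    calc ∑ i, (b + t • b') i ^ 2 ≤ ∑ _i : Fin d, (A * (1 + |t|)) ^ 2 :=
          Finset.sum_le_sum fun i _ => by
            simpa [Pi.add_apply, Pi.smul_apply, smul_eq_mul] using key t (b i) (b' i) (s3 i) (s4 i)
      _ = d * (A * (1 + |t|)) ^ 2 := by simp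
  have h4 : Om (a + t • a') (b + t • b') i ^ 2 ≤ ∑ j, Om (a + t • a') (b + t • b') j ^ 2 :=
    Finset.single_le_sum (f := fun j => Om (a + t • a') (b + t • b') j ^ 2)
      (fun j _ => sq_nonneg _) (mem_univ i)
  have h5 : Om (a + t • a') (b + t • b') i ^ 2 ≤ (2 * ((d : ℝ) + 1) * A * (1 + |t|)) ^ 2 := by
    have e1 : (2 * ((d : ℝ) + 1) * A * (1 + |t|)) ^ 2
        = 4 * ((d : ℝ) + 1) ^ 2 * (A * (1 + |t|)) ^ 2 := by ring
    rw [e1]
    have e2 : 4 * (d : ℝ) * (A * (1 + |t|)) ^ 2 ≤ 4 * ((d : ℝ) + 1) ^ 2 * (A * (1 + |t|)) ^ 2 := by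
      apply mul_le_mul_of_nonneg_right _ (sq_nonneg _)
      have : (0 : ℝ) ≤ d := Nat.cast_nonneg d
      nlinarith
    linarith
  exact abs_le_of_sq_le_sq h5 (by positivity)

theorem t_prodpoly (h_om1 : S_om1) (h_om3 : S_om3) (h_sym : S_sym) (h_poly2 : S_poly2)
    (h_growth : S_growth) : S_prodpoly := by
  intro d n a a' b b' m1 m2
  rcases Nat.eq_zero_or_pos n with hn | hn
  · subst hn
    refine ⟨C m1 + C m2 * X, ?_, fun t => ?_⟩
    · rw [Nat.choose_zero_right]
      refine natDegree_add_le_of_degree_le (by simp) ?_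
      exact (natDegree_C_mul_le _ _).trans natDegree_X_le
    · simp [powersetCard_zero]
      ring
  · obtain ⟨E, hE⟩ := h_poly2 d a a' b b'
    have hn0 : (n : ℝ) ≠ 0 := by exact_mod_cast hn.ne'
    obtain ⟨f, hf⟩ := h_sym d (psn d n) (psn_symm d n)
      (fun t i => Om (a + t • a') (b + t • b') i - (m1 + t * m2) / n)
      (fun j => ∑ k ∈ range (d + 1), E k * ((C (m1 / n) + C (m2 / n) * X) ^ (k - j) *
        C ((k.choose j : ℝ)))) (by
        intro t j
        rw [P_shift d (Om (a + t • a') (b + t • b')) ((m1 + t * m2) / n),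
          comp_coeff d _ (le_of_eq (P_deg d _)), (h_om1 d _ _).2.1, eval_finsetSum]
        refine Finset.sum_congr rfl fun k _ => ?_
        rw [hE t k]
        simp only [eval_mul, eval_pow, eval_add, eval_C, eval_X]
        congr 2
        congr 1
        ring)
    have hf' : ∀ t : ℝ, f.eval t = ∏ S ∈ powersetCard n (univ : Finset (Fin d)),
        (m1 + t * m2 - ∑ i ∈ S, Om (a + t • a') (b + t • b') i) := by
      intro t
      rw [hf t, psn_eval]
      refine Finset.prod_congr rfl fun S hS => ?_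
      rw [mem_powersetCard] at hS
      rw [Finset.sum_sub_distrib, Finset.sum_const, hS.2, nsmul_eq_mul]
      field_simp
      ring
    obtain ⟨K, hK, hKb⟩ := om_bound h_om3 d a a' b b'
    refine ⟨f, h_growth f (d.choose n) ((|m1| + |m2| + d * K) ^ (d.choose n)) ?_, hf'⟩
    intro t
    rw [hf' t, Finset.abs_prod, ← mul_pow]
    calc ∏ S ∈ powersetCard n (univ : Finset (Fin d)),
          |m1 + t * m2 - ∑ i ∈ S, Om (a + t • a') (b + t • b') i|
        ≤ ∏ _S ∈ powersetCard n (univ : Finset (Fin d)), (|m1| + |m2| + d * K) * (1 + |t|) := by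
          refine Finset.prod_le_prod (fun _ _ => abs_nonneg _) fun S _ => ?_
          have h1 : |∑ i ∈ S, Om (a + t • a') (b + t • b') i| ≤ d * K * (1 + |t|) := by
            calc |∑ i ∈ S, Om (a + t • a') (b + t • b') i|
                ≤ ∑ i ∈ S, |Om (a + t • a') (b + t • b') i| := Finset.abs_sum_le_sum_abs _ _
              _ ≤ ∑ i, |Om (a + t • a') (b + t • b') i| :=
                  Finset.sum_le_sum_of_subset_of_nonneg (subset_univ _) fun _ _ _ => abs_nonneg _
              _ ≤ ∑ _i : Fin d, K * (1 + |t|) := Finset.sum_le_sum fun i _ => hKb t i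
              _ = d * K * (1 + |t|) := by simp; ring
          have h2 : |m1 + t * m2| ≤ |m1| + |t| * |m2| := by
            calc |m1 + t * m2| ≤ |m1| + |t * m2| := abs_add_le _ _
              _ = |m1| + |t| * |m2| := by rw [abs_mul]
          have h3 : |m1| + |t| * |m2| ≤ (|m1| + |m2|) * (1 + |t|) := by
            have e1 : (|m1| + |m2|) * (1 + |t|) = |m1| + |t| * |m2| + (|m1| * |t| + |m2|) := by ring
            have e2 : 0 ≤ |m1| * |t| + |m2| := by positivity
            linarith
          calc |m1 + t * m2 - ∑ i ∈ S, Om (a + t • a') (b + t • b') i|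
              ≤ |m1 + t * m2| + |∑ i ∈ S, Om (a + t • a') (b + t • b') i| := abs_sub _ _
            _ ≤ (|m1| + |m2|) * (1 + |t|) + d * K * (1 + |t|) := by linarith
            _ = (|m1| + |m2| + d * K) * (1 + |t|) := by ring
      _ = ((|m1| + |m2| + d * K) * (1 + |t|)) ^ (d.choose n) := by
          rw [Finset.prod_const, Finset.card_powersetCard, Finset.card_univ, Fintype.card_fin]

end Pool.Agent.Q102.FF
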