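import Pool.Agent.Q83.FF.Stm

set_option autoImplicit false

open Pool.Agent.Q83.FF
open Polynomial Finset Filter Topology

namespace Pool.Agent.Q102.FF

theorem der_lim (f : ℝ → ℝ) (D x : ℝ) (hx : 0 ≤ x)
    (hf : HasDerivWithinAt f D (Set.Ici 0) 0) :
    Tendsto (fun u : ℝ => (f (x * u) - f 0) / u) (𝓝[>] 0) (𝓝 (x * D)) := by
  have h1 : HasDerivWithinAt (fun u : ℝ => x * u) x (Set.Ici 0) 0 := by
    simpa using (hasDerivWithinAt_id (0 : ℝ) (Set.Ici 0)).const_mul x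
  have h2 : HasDerivWithinAt f D (Set.Ici 0) (x * 0) := by simpa using hf
  have h3 : HasDerivWithinAt (f ∘ fun u : ℝ => x * u) (D * x) (Set.Ici 0) 0 :=
    h2.comp (0 : ℝ) h1 (fun u hu => mul_nonneg hx hu)
  have h4 := h3.mono (Set.Ioi_subset_Ici_self (a := (0 : ℝ)))
  rw [hasDerivWithinAt_iff_tendsto_slope' (by simp)] at h4
  rw [mul_comm x D]
  refine h4.congr' ?_
  filter_upwards [self_mem_nhdsWithin] with u _
  simp only [slope, Function.comp, mul_zero, sub_zero, vsub_eq_sub, smul_eq_mul]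
  rw [div_eq_inv_mul]

theorem t_stam (h_flow : S_flow) (h_heatconv : S_heatconv) (h_lip : S_lip)
    (h_heatsum : S_heatsum) (h_simple : S_simple) (h_uniq : S_uniq) : S_stam := by
  intro d a b c x y hd ha hb hc hai hbi hP hx hy
  have hci : Function.Injective c := h_simple d a b c hai hP
  obtain ⟨ha0, ha1, ha2⟩ := h_flow d a hd ha hai
  obtain ⟨hb0, hb1, hb2⟩ := h_flow d b hd hb hbi
  obtain ⟨hc0, hc1, hc2⟩ := h_flow d c hd hc hci
  have hdeg : ∀ a : Fin d → ℝ, (P a).natDegree ≤ d := fun a => le_of_eq (h_uniq.2.2.1 d a).2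
  have hd1 : (0 : ℝ) < (d : ℝ) - 1 := by
    have : (2 : ℝ) ≤ d := by exact_mod_cast hd
    linarith
  -- the inequality for each u
  have key : ∀ u : ℝ, 0 ≤ u →
      ∑ i, (fl c ((x + y) * u) i - c i) ^ 2 ≤
        ∑ i, (fl a (x * u) i - a i) ^ 2 + ∑ i, (fl b (y * u) i - b i) ^ 2 := by
    intro u hu
    have hxu : 0 ≤ x * u := mul_nonneg hx hu
    have hyu : 0 ≤ y * u := mul_nonneg hy hu
    have hxyu : 0 ≤ (x + y) * u := mul_nonneg (add_nonneg hx hy) hu
    have h1 : P (fl c ((x + y) * u)) = conv d (P (fl a (x * u))) (P (fl b (y * u))) := by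
      rw [(hc1 _ hxyu).2.2, (ha1 _ hxu).2.2, (hb1 _ hyu).2.2,
        h_heatconv d (x * u) (y * u) (P a) (P b) (hdeg a) (hdeg b), hP, add_mul]
    have h2 := h_lip d (fl a (x * u)) (fl b (y * u)) (fl c ((x + y) * u)) a b c
      (hc1 _ hxyu).1 hc h1 hP
    have h3 : ∑ i, (fl a (x * u) i - a i) = 0 := by
      rw [Finset.sum_sub_distrib, (h_heatsum d a (fl a (x * u)) (x * u) hd (ha1 _ hxu).2.2).1,
        sub_self]
    rw [h3, zero_mul, mul_zero, add_zero] at h2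
    exact h2
  have la : ∀ i, Tendsto (fun u : ℝ => (fl a (x * u) i - a i) / u) (𝓝[>] 0)
      (𝓝 (x * (J a i / ((d : ℝ) - 1)))) := by
    intro i
    have h := ha2 0 le_rfl i
    rw [ha0] at h
    have := der_lim (fun u => fl a u i) _ x hx h
    simpa [ha0] using this
  have lb : ∀ i, Tendsto (fun u : ℝ => (fl b (y * u) i - b i) / u) (𝓝[>] 0)
      (𝓝 (y * (J b i / ((d : ℝ) - 1)))) := by
    intro i
    have h := hb2 0 le_rfl i
    rw [hb0] at h
    have := der_lim (fun u => fl b u i) _ y hy h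
    simpa [hb0] using this
  have lc : ∀ i, Tendsto (fun u : ℝ => (fl c ((x + y) * u) i - c i) / u) (𝓝[>] 0)
      (𝓝 ((x + y) * (J c i / ((d : ℝ) - 1)))) := by
    intro i
    have h := hc2 0 le_rfl i
    rw [hc0] at h
    have := der_lim (fun u => fl c u i) _ (x + y) (add_nonneg hx hy) h
    simpa [hc0] using this
  have La : Tendsto (fun u : ℝ => ∑ i, ((fl a (x * u) i - a i) / u) ^ 2) (𝓝[>] 0)
      (𝓝 (∑ i, (x * (J a i / ((d : ℝ) - 1))) ^ 2)) :=
    tendsto_finsetSum _ fun i _ => (la i).pow 2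
  have Lb : Tendsto (fun u : ℝ => ∑ i, ((fl b (y * u) i - b i) / u) ^ 2) (𝓝[>] 0)
      (𝓝 (∑ i, (y * (J b i / ((d : ℝ) - 1))) ^ 2)) :=
    tendsto_finsetSum _ fun i _ => (lb i).pow 2
  have Lc : Tendsto (fun u : ℝ => ∑ i, ((fl c ((x + y) * u) i - c i) / u) ^ 2) (𝓝[>] 0)
      (𝓝 (∑ i, ((x + y) * (J c i / ((d : ℝ) - 1))) ^ 2)) :=
    tendsto_finsetSum _ fun i _ => (lc i).pow 2
  have hle := le_of_tendsto_of_tendsto Lc (La.add Lb) (by
    filter_upwards [self_mem_nhdsWithin] with u hu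
    have hu0 : (0 : ℝ) < u := hu
    have h := key u hu0.le
    have e1 : ∀ (z w : Fin d → ℝ), ∑ i, ((z i - w i) / u) ^ 2 = (∑ i, (z i - w i) ^ 2) / u ^ 2 := by
      intro z w
      rw [Finset.sum_div]
      exact Finset.sum_congr rfl fun i _ => by rw [div_pow]
    rw [e1, e1, e1, ← add_div]
    exact div_le_div_of_nonneg_right h (sq_nonneg u))
  have e2 : ∀ (z : ℝ) (w : Fin d → ℝ),
      ∑ i, (z * (J w i / ((d : ℝ) - 1))) ^ 2 = z ^ 2 * Phi w / ((d : ℝ) - 1) ^ 2 := by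
    intro z w
    unfold Phi
    rw [Finset.mul_sum, Finset.sum_div]
    refine Finset.sum_congr rfl fun i _ => ?_
    rw [mul_pow, div_pow]
    ring
  rw [e2, e2, e2, ← add_div] at hle
  exact (div_le_div_iff_of_pos_right (by positivity)).1 hle

end Pool.Agent.Q102.FF
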